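import Pool.Agent.Run7.h241.PF6

/-!
# MP_f3dc04_al: finitely generated normal subgroups of parafree groups

Let `P` be a parafree group with the lower central quotients of the free group on `X` (no finiteness
assumption on `P` or `X`), and let `N` be a nontrivial subgroup of `P` which is normal or, more
generally, commensurated. If `N` has infinite index, then `N` is not finitely generated. If `N` is
generated by `d` elements, then `[P : N] (|X| - 1) ≤ d - 1`.
-/

set_option autoImplicit false

namespace Pool.Agent.Results.MP_f3dc04_al.NotFG

universe u v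

/-- The group `G` is residually nilpotent: the intersection of the terms of its lower central series
is trivial (`(⊤ : Subgroup G).lowerCentralSeries n` is `γ_{n+1}(G)`). -/
def ResiduallyNilpotent (G : Type u) [Group G] : Prop :=
  ⨅ n : ℕ, (⊤ : Subgroup G).lowerCentralSeries n = ⊥

/-- The groups `G` and `F` have the same lower central quotients: `G / γ_n(G) ≅ F / γ_n(F)` for all
`n ≥ 1`. -/
def SameLowerCentralQuotients (G : Type u) (F : Type v) [Group G] [Group F] : Prop :=
  ∀ n : ℕ, Nonempty
    (G ⧸ (⊤ : Subgroup G).lowerCentralSeries n ≃* F ⧸ (⊤ : Subgroup F).lowerCentralSeries n)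

/-- The group `P` is parafree, with the same lower central quotients as the free group on `X`. -/
def IsParafreeOn (P : Type u) (X : Type v) [Group P] : Prop :=
  ResiduallyNilpotent P ∧ SameLowerCentralQuotients P (FreeGroup X)

/-- The subgroup `N` is commensurated: `N ∩ gNg⁻¹` has finite index in `N` for every `g`. -/
def IsCommensurated {P : Type u} [Group P] (N : Subgroup P) : Prop :=
  ∀ g : P, (N.map (MulAut.conj g).toMonoidHom).relIndex N ≠ 0

theorem IsCommensurated.of_normal {P : Type u} [Group P] {N : Subgroup P} (hN : N.Normal) :
    IsCommensurated N := by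
  intro g
  have h1 : N.map (MulAut.conj g).toMonoidHom = N := by
    ext x
    constructor
    · rintro ⟨y, hy, rfl⟩
      exact hN.conj_mem y hy g
    · intro hx
      refine ⟨g⁻¹ * x * g, ?_, ?_⟩
      · have := hN.conj_mem x hx g⁻¹
        rwa [inv_inv] at this
      · simp [mul_assoc]
  rw [h1, Subgroup.relIndex_self]
  exact one_ne_zero

/-- A nontrivial normal (or commensurated) subgroup `N` of infinite index in a parafree group `P` is
not finitely generated; if `N` is generated by `d` elements, then `[P : N] (r - 1) ≤ d - 1` for every
finite number `r` not exceeding the rank of `P`. -/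
theorem result {P : Type u} [Group P] {X : Type v} (hP : IsParafreeOn P X) (N : Subgroup P)
    (hN : N.Normal ∨ IsCommensurated N) (hN1 : N ≠ ⊥) :
    (N.index = 0 → ¬ N.FG) ∧
      ∀ S : Finset P, Subgroup.closure (S : Set P) = N →
        ∀ Y : Finset X, N.index * (Y.card - 1) ≤ S.card - 1 := by
  have hN' : IsCommensurated N := hN.elim IsCommensurated.of_normal id
  obtain ⟨B⟩ := Run7.h241.PF.exists_bas (P := P) (X := X) hP.2
  have hres : Run7.h241.PF.ResNil P := by
    intro x hx
    have h1 : x ∈ ⨅ n : ℕ, (⊤ : Subgroup P).lowerCentralSeries n := Subgroup.mem_iInf.2 hx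
    rw [hP.1] at h1
    exact Subgroup.mem_bot.1 h1
  refine ⟨fun h0 hfg => ?_, fun S hS => (Run7.h241.PF.main B hres N hN' hN1 S hS).2⟩
  obtain ⟨S, hS⟩ := hfg
  exact (Run7.h241.PF.main B hres N hN' hN1 S hS).1 h0

end Pool.Agent.Results.MP_f3dc04_al.NotFG
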